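import Pool.Agent.Q211.LocDep.Defs

open MeasureTheory ProbabilityTheory Filter Asymptotics
open scoped Topology ENNReal

namespace Pool.Agent.Q211.LocDep

/-- Bernoulli measure on `Bool`. -/
noncomputable def bern (p : ℝ) : Measure Bool :=
  ENNReal.ofReal p • Measure.dirac true + ENNReal.ofReal (1 - p) • Measure.dirac false

lemma bern_true (p : ℝ) : bern p {true} = ENNReal.ofReal p := by
  simp [bern]

lemma bern_false (p : ℝ) : bern p {false} = ENNReal.ofReal (1 - p) := by
  simp [bern]

lemma bern_prob {p : ℝ} (hp : p ∈ Set.Icc (0 : ℝ) 1) : IsProbabilityMeasure (bern p) := by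
  constructor
  simp only [bern, Measure.coe_add, Measure.coe_smul, Pi.add_apply, Pi.smul_apply, smul_eq_mul,
    measure_univ, mul_one]
  rw [← ENNReal.ofReal_add hp.1 (by linarith [hp.2])]
  simp

variable {n : ℕ} {ι : Type*} [Fintype ι] [DecidableEq ι]

/-- The graph whose edge `e` is present iff the bit of the block of `e` is `true`. -/
def graphOf (b : E n → ι) (ω : ι → Bool) : SimpleGraph (Fin n) :=
  SimpleGraph.fromEdgeSet {e | ∃ h : ¬ e.IsDiag, ω (b ⟨e, h⟩) = true}

lemma edgeIn_graphOf (b : E n → ι) (ω : ι → Bool) (e : E n) :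
    edgeIn e (graphOf b ω) ↔ ω (b e) = true := by
  unfold edgeIn graphOf
  rw [SimpleGraph.edgeSet_fromEdgeSet]
  constructor
  · rintro ⟨⟨h, h2⟩, -⟩
    exact h2
  · intro h
    exact ⟨⟨e.2, h⟩, e.2⟩

/-- The law of the block graph. -/
noncomputable def blockMeasure (b : E n → ι) (p : ℝ) : Measure (SimpleGraph (Fin n)) :=
  (Measure.pi (fun _ : ι => bern p)).map (graphOf b)

lemma measurable_graphOf (b : E n → ι) : Measurable (graphOf b) := by
  have : DiscreteMeasurableSpace (ι → Bool) := inferInstance
  exact Measurable.of_discrete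

lemma blockMeasure_apply (b : E n → ι) (p : ℝ) (Q : Set (SimpleGraph (Fin n))) :
    blockMeasure b p Q = (Measure.pi (fun _ : ι => bern p)) {ω | graphOf b ω ∈ Q} :=
  Measure.map_apply (measurable_graphOf b) (measurableSet_graph Q)

lemma pi_coord_true {p : ℝ} (hp : p ∈ Set.Icc (0 : ℝ) 1) (i : ι) :
    (Measure.pi (fun _ : ι => bern p)) {ω | ω i = true} = ENNReal.ofReal p := by
  have := bern_prob hp
  have h := (measurePreserving_eval (fun _ : ι => bern p) i).measure_preimage
    (measurableSet_singleton true).nullMeasurableSet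
  rw [bern_true] at h
  rw [← h]
  congr 1

lemma pi_all_false {p : ℝ} (hp : p ∈ Set.Icc (0 : ℝ) 1) (S : Finset ι) :
    (Measure.pi (fun _ : ι => bern p)) {ω | ∀ i ∈ S, ω i = false} =
      ENNReal.ofReal ((1 - p) ^ S.card) := by
  have := bern_prob hp
  have h : {ω : ι → Bool | ∀ i ∈ S, ω i = false} =
      Set.pi Set.univ (fun i => if i ∈ S then {false} else Set.univ) := by
    ext ω
    simp only [Set.mem_pi, Set.mem_univ, forall_const]
    constructor
    · intro h i
      by_cases hi : i ∈ S
      · simp [hi, h i hi]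
      · simp [hi]
    · intro h i hi
      have := h i
      simpa [hi] using this
  rw [h, Measure.pi_pi]
  have h2 : ∀ i : ι, (bern p) (if i ∈ S then ({false} : Set Bool) else Set.univ) =
      if i ∈ S then ENNReal.ofReal (1 - p) else 1 := by
    intro i
    split_ifs
    · exact bern_false p
    · exact measure_univ
  simp_rw [h2]
  rw [Finset.prod_ite_mem, Finset.univ_inter, Finset.prod_const, ENNReal.ofReal_pow]
  linarith [hp.2]

theorem block_isDep (b : E n → ι) (d : ℕ)
    (hb : ∀ i, (Finset.univ.filter (fun e => b e = i)).card ≤ d + 1) {p : ℝ}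
    (hp : p ∈ Set.Icc (0 : ℝ) 1) : IsDep d p (blockMeasure b p) := by
  have hbp := bern_prob hp
  have hprob : IsProbabilityMeasure (blockMeasure b p) :=
    Measure.isProbabilityMeasure_map (measurable_graphOf b).aemeasurable
  refine ⟨hprob, ?_, ?_⟩
  · intro e
    rw [measureReal_def, blockMeasure_apply]
    have : {ω : ι → Bool | graphOf b ω ∈ {G | edgeIn e G}} = {ω | ω (b e) = true} := by
      ext ω
      exact edgeIn_graphOf b ω e
    rw [this, pi_coord_true hp, ENNReal.toReal_ofReal hp.1]
  · classical
    let D : SimpleGraph (E n) :=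
      { Adj := fun e f => e ≠ f ∧ b e = b f
        symm := ⟨fun e f h => ⟨h.1.symm, h.2.symm⟩⟩
        loopless := ⟨fun e h => h.1 rfl⟩ }
    refine ⟨D, ?_, ?_⟩
    · intro e
      have h1 : D.neighborSet e ⊆ ((Finset.univ.filter (fun f => b f = b e)).erase e : Finset (E n)) := by
        intro f hf
        have hf' : e ≠ f ∧ b e = b f := hf
        simp only [Finset.coe_erase, Finset.coe_filter, Finset.mem_univ, true_and]
        exact ⟨hf'.2.symm, fun h => hf'.1 h.symm⟩
      refine (Set.ncard_le_ncard h1 (Finset.finite_toSet _)).trans ?_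
      rw [Set.ncard_coe_finset, Finset.card_erase_of_mem (by simp)]
      have := hb (b e)
      omega
    · intro e
      have hind : iIndepFun (fun (i : ι) (ω : ι → Bool) => ω i) (Measure.pi (fun _ : ι => bern p)) :=
        iIndepFun_pi (X := fun _ => id) (fun _ => measurable_id.aemeasurable)
      have h2 := hind.indepFun_finset {b e} (Finset.univ.erase (b e))
        (by simp) (fun i => measurable_pi_apply i)
      have hcomp : IndepFun (fun ω : ι → Bool => (edgeIn e (graphOf b ω)))
          (fun ω : ι → Bool => fun f : {f : E n // f ≠ e ∧ ¬ D.Adj e f} =>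
            edgeIn f.1 (graphOf b ω)) (Measure.pi (fun _ : ι => bern p)) := by
        have hne : ∀ f : {f : E n // f ≠ e ∧ ¬ D.Adj e f}, b f.1 ∈ Finset.univ.erase (b e) := by
          intro f
          simp only [Finset.mem_erase, Finset.mem_univ, and_true]
          intro h
          exact f.2.2 ⟨f.2.1.symm, h.symm⟩
        have h3 := h2.comp
          (φ := fun g : (({b e} : Finset ι) → Bool) => (g ⟨b e, by simp⟩ = true : Prop))
          (ψ := fun g : ((Finset.univ.erase (b e) : Finset ι) → Bool) =>
            fun f : {f : E n // f ≠ e ∧ ¬ D.Adj e f} => (g ⟨b f.1, hne f⟩ = true : Prop))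
          Measurable.of_discrete Measurable.of_discrete
        refine h3.congr (Eventually.of_forall ?_) (Eventually.of_forall ?_)
        · intro ω
          exact propext (edgeIn_graphOf b ω e).symm
        · intro ω
          funext f
          exact propext (edgeIn_graphOf b ω f.1).symm
      rw [indepFun_iff_measure_inter_preimage_eq_mul] at hcomp ⊢
      intro s t hs ht
      have := hcomp s t hs ht
      simp only [blockMeasure_apply]
      exact this

omit [DecidableEq ι] in
lemma block_exists_le (b : E n → ι) {p : ℝ} (hp : p ∈ Set.Icc (0 : ℝ) 1) :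
    (blockMeasure b p).real {G | ∃ e : E n, edgeIn e G} ≤ Fintype.card ι * p := by
  classical
  have hbp := bern_prob hp
  rw [measureReal_def, blockMeasure_apply]
  have hsub : {ω : ι → Bool | graphOf b ω ∈ {G | ∃ e : E n, edgeIn e G}} ⊆
      ⋃ i : ι, {ω | ω i = true} := by
    rintro ω ⟨e, he⟩
    exact Set.mem_iUnion.2 ⟨b e, (edgeIn_graphOf b ω e).1 he⟩
  have h1 : (Measure.pi (fun _ : ι => bern p)) {ω : ι → Bool | graphOf b ω ∈ {G | ∃ e : E n, edgeIn e G}}
      ≤ ∑ i : ι, ENNReal.ofReal p := by
    refine (measure_mono hsub).trans ((measure_iUnion_le _).trans ?_)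
    rw [tsum_fintype]
    exact Finset.sum_le_sum fun i _ => (pi_coord_true hp i).le
  refine (ENNReal.toReal_mono ?_ h1).trans ?_
  · simp [ENNReal.mul_eq_top]
  · rw [Finset.sum_const, Finset.card_univ, nsmul_eq_mul, ENNReal.toReal_mul,
      ENNReal.toReal_ofReal hp.1]
    simp

end Pool.Agent.Q211.LocDep
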