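import Pool.Agent.Q211.LocDep.Block

open MeasureTheory ProbabilityTheory Filter Asymptotics
open scoped Topology ENNReal

namespace Pool.Agent.Q211.LocDep

variable {n d : ℕ} {p : ℝ} {μ : Measure (SimpleGraph (Fin n))}

open Classical in
/-- The number of edges. -/
noncomputable def num (G : SimpleGraph (Fin n)) : ℝ := ∑ e : E n, (if edgeIn e G then (1 : ℝ) else 0)

lemma num_eq (G : SimpleGraph (Fin n)) : (G.edgeSet.ncard : ℝ) = num G := ncard_edgeSet G

lemma num_nonneg (G : SimpleGraph (Fin n)) : 0 ≤ num G :=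
  Finset.sum_nonneg fun _ _ => by split_ifs <;> norm_num

lemma integral_ind [IsProbabilityMeasure μ] (Q : SimpleGraph (Fin n) → Prop)
    [DecidablePred Q] :
    ∫ G, (if Q G then (1 : ℝ) else 0) ∂μ = μ.real {G | Q G} := by
  have : (fun G => if Q G then (1 : ℝ) else 0) = Set.indicator {G | Q G} (fun _ => (1 : ℝ)) := by
    funext G
    by_cases hG : Q G
    · rw [if_pos hG, Set.indicator_of_mem (show G ∈ {G | Q G} from hG)]
    · rw [if_neg hG, Set.indicator_of_notMem (show G ∉ {G | Q G} from hG)]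
  rw [this, integral_indicator_const _ (measurableSet_graph _)]
  simp

lemma integral_num (h : IsDep d p μ) : ∫ G, num G ∂μ = Fintype.card (E n) * p := by
  have := h.prob
  unfold num
  rw [integral_finsetSum _ (fun e _ => Integrable.of_finite)]
  simp only [integral_ind, h.edge]
  rw [Finset.sum_const, Finset.card_univ, nsmul_eq_mul]

/-- Union bound for the presence of an edge. -/
lemma exists_edge_le (h : IsDep d p μ) :
    μ.real {G | ∃ e : E n, edgeIn e G} ≤ Fintype.card (E n) * p := by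
  have := h.prob
  have h1 : {G : SimpleGraph (Fin n) | ∃ e : E n, edgeIn e G} = ⋃ e : E n, {G | edgeIn e G} := by
    ext G; simp
  rw [h1]
  refine (measureReal_iUnion_fintype_le _).trans ?_
  simp only [h.edge]
  rw [Finset.sum_const, Finset.card_univ, nsmul_eq_mul]

lemma prop_subset_nonempty (hn : 1 ≤ n) : prop n ⊆ {G | ∃ e : E n, edgeIn e G} := by
  rintro G (⟨u, v, w, _, h1, _⟩ | h)
  · exact ⟨⟨s(u, v), by simpa using h1.ne⟩, h1⟩
  · by_contra hcon
    have hcon' : ∀ e : E n, ¬ edgeIn e G := fun e he => hcon ⟨e, he⟩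
    rw [num_eq] at h
    have h0 : num G = 0 := by
      unfold num
      exact Finset.sum_eq_zero fun e _ => if_neg (hcon' e)
    rw [h0] at h
    have : (0 : ℝ) < √(n : ℝ) := Real.sqrt_pos.2 (by exact_mod_cast hn)
    linarith

/-- For `d = 0` (independent edges) the property is unlikely below `n^{-3/2}`. -/
lemma prop_le_of_zero (h : IsDep 0 p μ) (hn : 1 ≤ n) (hp : 0 ≤ p) :
    μ.real (prop n) ≤ (p * (n * √n)) ^ 2 + p * (n * √n) := by
  have := h.prob
  obtain ⟨D, hD, hD2⟩ := h.dep
  have hnD : ∀ e f, ¬ D.Adj e f := by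
    intro e f hef
    have h0 : (D.neighborSet e).ncard = 0 := Nat.le_zero.1 (hD e)
    rw [Set.ncard_eq_zero (Set.toFinite _)] at h0
    have : f ∈ D.neighborSet e := hef
    rw [h0] at this
    exact this
  have hn0 : (1 : ℝ) ≤ n := by exact_mod_cast hn
  have hs : 0 < √(n : ℝ) := Real.sqrt_pos.2 (by linarith)
  have hss : √(n : ℝ) * √(n : ℝ) = n := Real.mul_self_sqrt (by linarith)
  have h1 : μ.real {G : SimpleGraph (Fin n) | ∃ u v w, v ≠ w ∧ G.Adj u v ∧ G.Adj u w} ≤
      (n : ℝ) ^ 3 * (p * p) := by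
    have hsub : {G : SimpleGraph (Fin n) | ∃ u v w, v ≠ w ∧ G.Adj u v ∧ G.Adj u w} =
        ⋃ t : Fin n × Fin n × Fin n,
          {G | t.2.1 ≠ t.2.2 ∧ G.Adj t.1 t.2.1 ∧ G.Adj t.1 t.2.2} := by
      ext G
      simp only [Set.mem_iUnion]
      constructor
      · rintro ⟨u, v, w, h⟩
        exact ⟨(u, v, w), h⟩
      · rintro ⟨⟨u, v, w⟩, h⟩
        exact ⟨u, v, w, h⟩
    rw [hsub]
    refine (measureReal_iUnion_fintype_le _).trans ?_
    have hbd : ∀ t : Fin n × Fin n × Fin n,
        μ.real {G | t.2.1 ≠ t.2.2 ∧ G.Adj t.1 t.2.1 ∧ G.Adj t.1 t.2.2} ≤ p * p := by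
      rintro ⟨u, v, w⟩
      by_cases hc : v ≠ w ∧ u ≠ v ∧ u ≠ w
      · obtain ⟨hvw, huv, huw⟩ := hc
        let e : E n := ⟨s(u, v), by simpa using huv⟩
        let f : E n := ⟨s(u, w), by simpa using huw⟩
        have hef : f ≠ e := by
          intro hfe
          have : s(u, w) = s(u, v) := congrArg Subtype.val hfe
          rw [Sym2.eq_iff] at this
          rcases this with ⟨-, h2⟩ | ⟨h2, h3⟩
          · exact hvw h2.symm
          · exact huv h2
        rw [← h.pair hD2 hef (hnD e f)]
        refine measureReal_mono ?_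
        rintro G ⟨_, ha, hb⟩
        exact ⟨ha, hb⟩
      · have : {G : SimpleGraph (Fin n) | v ≠ w ∧ G.Adj u v ∧ G.Adj u w} = ∅ := by
          ext G
          simp only [Set.mem_empty_iff_false, iff_false]
          rintro ⟨h1, h2, h3⟩
          exact hc ⟨h1, h2.ne, h3.ne⟩
        simp only
        rw [this]
        simp only [measureReal_empty]
        positivity
    refine (Finset.sum_le_sum fun t _ => hbd t).trans ?_
    rw [Finset.sum_const, Finset.card_univ, nsmul_eq_mul]
    simp only [Fintype.card_prod, Fintype.card_fin]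
    push_cast
    apply le_of_eq; ring
  have h2 : μ.real {G : SimpleGraph (Fin n) | √(n : ℝ) ≤ (G.edgeSet.ncard : ℝ)} ≤
      p * (n * √n) := by
    have hm := mul_meas_ge_le_integral_of_nonneg (μ := μ) (f := fun G => num G)
      (Eventually.of_forall fun G => num_nonneg G) Integrable.of_finite (√(n : ℝ))
    rw [integral_num h] at hm
    simp only [← num_eq] at hm
    have hc := card_E_le n
    have : √(n : ℝ) * μ.real {G : SimpleGraph (Fin n) | √(n : ℝ) ≤ (G.edgeSet.ncard : ℝ)} ≤
        √(n : ℝ) * (p * (n * √n)) := by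
      refine hm.trans ?_
      have : √(n : ℝ) * (p * (n * √n)) = (n : ℝ) ^ 2 * p := by
        calc √(n : ℝ) * (p * (n * √n)) = (√(n : ℝ) * √(n : ℝ)) * (n * p) := by ring
          _ = _ := by rw [hss]; ring
      rw [this]
      exact mul_le_mul_of_nonneg_right hc hp
    exact le_of_mul_le_mul_left this hs
  have h3 : prop n = {G : SimpleGraph (Fin n) | ∃ u v w, v ≠ w ∧ G.Adj u v ∧ G.Adj u w} ∪
      {G : SimpleGraph (Fin n) | √(n : ℝ) ≤ (G.edgeSet.ncard : ℝ)} := rfl
  rw [h3]
  refine (measureReal_union_le _ _).trans ?_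
  have h4 : (p * (n * √(n : ℝ))) ^ 2 = (n : ℝ) ^ 3 * (p * p) := by
    calc (p * (n * √(n : ℝ))) ^ 2 = p ^ 2 * n ^ 2 * (√(n : ℝ) * √(n : ℝ)) := by ring
      _ = _ := by rw [hss]; ring
  rw [h4]
  linarith

open Classical in
/-- Second moment bound. -/
lemma second_moment (h : IsDep d p μ) (hp : 0 ≤ p) :
    ∫ G, (num G - Fintype.card (E n) * p) ^ 2 ∂μ ≤ (d + 1) * (Fintype.card (E n) * p) := by
  have := h.prob
  obtain ⟨D, hD, hD2⟩ := h.dep
  have hexp : ∀ G : SimpleGraph (Fin n), (num G - Fintype.card (E n) * p) ^ 2 =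
      ∑ e : E n, ∑ f : E n, ((if edgeIn e G then (1 : ℝ) else 0) - p) *
        ((if edgeIn f G then (1 : ℝ) else 0) - p) := by
    intro G
    rw [← Finset.sum_mul_sum, Finset.sum_sub_distrib, Finset.sum_const, Finset.card_univ,
      nsmul_eq_mul, sq]
    rfl
  simp only [hexp]
  rw [integral_finsetSum _ (fun e _ => Integrable.of_finite)]
  have hterm : ∀ e f : E n, ∫ G, ((if edgeIn e G then (1 : ℝ) else 0) - p) *
        ((if edgeIn f G then (1 : ℝ) else 0) - p) ∂μ = μ.real {G | edgeIn e G ∧ edgeIn f G} - p * p := by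
    intro e f
    have hx : ∀ G : SimpleGraph (Fin n), ((if edgeIn e G then (1 : ℝ) else 0) - p) *
        ((if edgeIn f G then (1 : ℝ) else 0) - p) =
        (if edgeIn e G ∧ edgeIn f G then (1 : ℝ) else 0) - p * (if edgeIn e G then (1 : ℝ) else 0)
          - p * (if edgeIn f G then (1 : ℝ) else 0) + p * p := by
      intro G
      by_cases h1 : edgeIn e G <;> by_cases h2 : edgeIn f G <;> simp [h1, h2] <;> ring
    simp only [hx]
    rw [integral_add Integrable.of_finite Integrable.of_finite,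
      integral_sub Integrable.of_finite Integrable.of_finite,
      integral_sub Integrable.of_finite Integrable.of_finite, integral_const_mul,
      integral_const_mul, integral_ind, integral_ind, integral_ind, h.edge, h.edge]
    simp
  have hrow : ∀ e : E n, ∫ G, ∑ f : E n, ((if edgeIn e G then (1 : ℝ) else 0) - p) *
        ((if edgeIn f G then (1 : ℝ) else 0) - p) ∂μ ≤ (d + 1) * p := by
    intro e
    rw [integral_finsetSum _ (fun e _ => Integrable.of_finite)]
    simp only [hterm]
    have hle : ∀ f : E n, μ.real {G | edgeIn e G ∧ edgeIn f G} - p * p ≤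
        if f = e ∨ D.Adj e f then p else 0 := by
      intro f
      split_ifs with hf
      · have : μ.real {G | edgeIn e G ∧ edgeIn f G} ≤ p := by
          rw [← h.edge e]
          exact measureReal_mono fun G hG => hG.1
        nlinarith
      · push Not at hf
        rw [h.pair hD2 hf.1 hf.2]
        simp
    refine (Finset.sum_le_sum fun f _ => hle f).trans ?_
    rw [← Finset.sum_filter, Finset.sum_const, nsmul_eq_mul]
    refine mul_le_mul_of_nonneg_right ?_ hp
    have hc : (Finset.univ.filter (fun f => f = e ∨ D.Adj e f)).card ≤ d + 1 := by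
      have hsub : (Finset.univ.filter (fun f => f = e ∨ D.Adj e f)) ⊆
          insert e (Finset.univ.filter (fun f => D.Adj e f)) := by
        intro f hf
        simp only [Finset.mem_filter, Finset.mem_univ, true_and, Finset.mem_insert] at hf ⊢
        exact hf
      refine (Finset.card_le_card hsub).trans ((Finset.card_insert_le _ _).trans ?_)
      have h2 := hD e
      have h3 : (D.neighborSet e).ncard = (Finset.univ.filter (fun f => D.Adj e f)).card := by
        rw [← Set.ncard_coe_finset]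
        congr 1
        ext f
        simp
      omega
    exact_mod_cast hc
  refine (Finset.sum_le_sum fun e _ => hrow e).trans ?_
  rw [Finset.sum_const, Finset.card_univ, nsmul_eq_mul]
  apply le_of_eq; ring

/-- Above the upper threshold the property is likely. -/
lemma compl_prop_le (h : IsDep d p μ) (hn : 2 ≤ n) (hp : 0 < p)
    (hbig : 8 / (n * √n) ≤ p) :
    1 - μ.real (prop n) ≤ 16 * (((d : ℝ) + 1) / (n : ℝ) ^ 2) / p := by
  have := h.prob
  have hn0 : (2 : ℝ) ≤ n := by exact_mod_cast hn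
  have hs : 0 < √(n : ℝ) := Real.sqrt_pos.2 (by linarith)
  have hss : √(n : ℝ) * √(n : ℝ) = n := Real.mul_self_sqrt (by linarith)
  set M : ℝ := Fintype.card (E n) * p with hM
  have hMge : (n : ℝ) ^ 2 / 4 * p ≤ M := mul_le_mul_of_nonneg_right (card_E_ge n hn) hp.le
  have hMpos : 0 < M := lt_of_lt_of_le (by positivity) hMge
  have hMs : √(n : ℝ) ≤ M / 2 := by
    have h1 : 8 ≤ p * (n * √n) := by
      rwa [div_le_iff₀ (by positivity)] at hbig
    have h2 : 8 * √(n : ℝ) ≤ p * (n : ℝ) ^ 2 := by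
      calc 8 * √(n : ℝ) ≤ p * (n * √n) * √(n : ℝ) := mul_le_mul_of_nonneg_right h1 hs.le
        _ = p * n * (√(n : ℝ) * √(n : ℝ)) := by ring
        _ = p * (n : ℝ) ^ 2 := by rw [hss]; ring
    linarith
  have hm := mul_meas_ge_le_integral_of_nonneg (μ := μ) (f := fun G => (num G - M) ^ 2)
    (Eventually.of_forall fun G => sq_nonneg _) Integrable.of_finite ((M / 2) ^ 2)
  have hm2 := hm.trans (second_moment h hp.le)
  have hsub : (prop n)ᶜ ⊆ {G : SimpleGraph (Fin n) | (M / 2) ^ 2 ≤ (num G - M) ^ 2} := by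
    intro G hG
    have hG2 : ¬ (√(n : ℝ) ≤ (G.edgeSet.ncard : ℝ)) := fun hc => hG (Or.inr hc)
    rw [num_eq] at hG2
    push Not at hG2
    have : num G < M / 2 := lt_of_lt_of_le hG2 hMs
    show (M / 2) ^ 2 ≤ (num G - M) ^ 2
    nlinarith
  have h1 : 1 - μ.real (prop n) = μ.real (prop n)ᶜ := by
    rw [probReal_compl_eq_one_sub (measurableSet_graph _)]
  rw [h1]
  have h2 : μ.real (prop n)ᶜ ≤ μ.real {G : SimpleGraph (Fin n) | (M / 2) ^ 2 ≤ (num G - M) ^ 2} :=
    measureReal_mono hsub
  have h3 : (M / 2) ^ 2 * μ.real (prop n)ᶜ ≤ (d + 1) * M :=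
    (mul_le_mul_of_nonneg_left h2 (by positivity)).trans hm2
  have h4 : M * μ.real (prop n)ᶜ ≤ 4 * (d + 1) := by
    have : M * (M * μ.real (prop n)ᶜ) ≤ M * (4 * (d + 1)) := by nlinarith
    exact le_of_mul_le_mul_left this hMpos
  have h5 : (n : ℝ) ^ 2 / 4 * p * μ.real (prop n)ᶜ ≤ 4 * (d + 1) :=
    (mul_le_mul_of_nonneg_right hMge measureReal_nonneg).trans h4
  rw [le_div_iff₀ hp, mul_div_assoc', le_div_iff₀ (by positivity)]
  nlinarith

end Pool.Agent.Q211.LocDep
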