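import Mathlib

open MeasureTheory ProbabilityTheory Filter Asymptotics
open scoped Topology ENNReal

namespace Pool.Agent.Q211.LocDep

/-- The potential edges of a graph on `Fin n`. -/
abbrev E (n : ℕ) := {e : Sym2 (Fin n) // ¬ e.IsDiag}

instance instMSGraph (n : ℕ) : MeasurableSpace (SimpleGraph (Fin n)) := ⊤

/-- The edge `e` is present in `G`. -/
def edgeIn {n : ℕ} (e : E n) (G : SimpleGraph (Fin n)) : Prop := e.1 ∈ G.edgeSet

/-- `D` is a dependency graph for the edge indicators under `μ`: each edge indicator is independent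
of the family of all indicators of other, non-adjacent (in `D`) edges. -/
def IsDependencyGraph {n : ℕ} (D : SimpleGraph (E n)) (μ : Measure (SimpleGraph (Fin n))) : Prop :=
  ∀ e : E n, IndepFun (fun G => edgeIn e G)
    (fun G => fun f : {f : E n // f ≠ e ∧ ¬ D.Adj e f} => edgeIn f.1 G) μ

/-- `μ` is a `d`-dependent random graph distribution on `Fin n` with edge probability `p`. -/
structure IsDep {n : ℕ} (d : ℕ) (p : ℝ) (μ : Measure (SimpleGraph (Fin n))) : Prop where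
  prob : IsProbabilityMeasure μ
  edge : ∀ e : E n, μ.real {G | edgeIn e G} = p
  dep : ∃ D : SimpleGraph (E n), (∀ e, (D.neighborSet e).ncard ≤ d) ∧ IsDependencyGraph D μ

/-- A monotone, isomorphism-invariant, non-trivial graph property. -/
structure IsMonotoneProperty (P : ∀ n, Set (SimpleGraph (Fin n))) : Prop where
  mono : ∀ n (G G' : SimpleGraph (Fin n)), G ≤ G' → G ∈ P n → G' ∈ P n
  iso : ∀ n (G G' : SimpleGraph (Fin n)), Nonempty (G ≃g G') → G ∈ P n → G' ∈ P n
  nontrivial : ∀ᶠ n in atTop, (P n).Nonempty ∧ P n ≠ Set.univ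

/-- The range of `d` considered: `d = O(n / ln n)`. -/
def Admissible (d : ℕ → ℕ) : Prop :=
  (fun n : ℕ => (d n : ℝ)) =O[atTop] (fun n : ℕ => (n : ℝ) / Real.log n)

/-- `(L, U)` is a threshold pair for `P`. -/
structure IsThresholdPair (P : ∀ n, Set (SimpleGraph (Fin n))) (L U : ℕ → ℕ → ℝ) : Prop where
  pos : ∀ n ≥ 1, ∀ d, 0 < L n d
  le : ∀ n d, L n d ≤ U n d
  lower : ∀ (d : ℕ → ℕ) (p : ℕ → ℝ), Admissible d → (∀ n, p n ∈ Set.Icc (0 : ℝ) 1) →
    p =o[atTop] (fun n => L n (d n)) →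
    ∀ μ : ∀ n, Measure (SimpleGraph (Fin n)), (∀ n, IsDep (d n) (p n) (μ n)) →
      Tendsto (fun n => (μ n).real (P n)) atTop (𝓝 0)
  upper : ∀ (d : ℕ → ℕ) (p : ℕ → ℝ), Admissible d → (∀ n, p n ∈ Set.Icc (0 : ℝ) 1) →
    (fun n => U n (d n)) =o[atTop] p →
    ∀ μ : ∀ n, Measure (SimpleGraph (Fin n)), (∀ n, IsDep (d n) (p n) (μ n)) →
      Tendsto (fun n => (μ n).real (P n)) atTop (𝓝 1)
  middle : ∀ (d : ℕ → ℕ) (p : ℕ → ℝ), Admissible d → (∀ n, p n ∈ Set.Icc (0 : ℝ) 1) →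
    (fun n => L n (d n)) =o[atTop] p → p =o[atTop] (fun n => U n (d n)) →
    (∃ μ : ∀ n, Measure (SimpleGraph (Fin n)), (∀ n, IsDep (d n) (p n) (μ n)) ∧
      Tendsto (fun n => (μ n).real (P n)) atTop (𝓝 1)) ∧
    (∃ μ : ∀ n, Measure (SimpleGraph (Fin n)), (∀ n, IsDep (d n) (p n) (μ n)) ∧
      Tendsto (fun n => (μ n).real (P n)) atTop (𝓝 0))

/-- The graph property: some two edges share a vertex, or there are at least `√n` edges. -/
def prop (n : ℕ) : Set (SimpleGraph (Fin n)) :=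
  {G | (∃ u v w, v ≠ w ∧ G.Adj u v ∧ G.Adj u w) ∨ √(n : ℝ) ≤ (G.edgeSet.ncard : ℝ)}

/-- The lower threshold. -/
noncomputable def Lo (n d : ℕ) : ℝ := if d = 0 then 1 / ((n : ℝ) * √(n : ℝ)) else 1 / (n : ℝ) ^ 2

/-- The upper threshold. -/
noncomputable def Up (n d : ℕ) : ℝ :=
  max (1 / ((n : ℝ) * √(n : ℝ))) (((d : ℝ) + 1) / (n : ℝ) ^ 2)

/-! ### Basic facts -/

lemma card_E (n : ℕ) : Fintype.card (E n) = n.choose 2 := by
  have := Sym2.card_subtype_not_diag (α := Fin n)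
  simpa using this

lemma card_E_le (n : ℕ) : (Fintype.card (E n) : ℝ) ≤ (n : ℝ) ^ 2 := by
  rw [card_E, Nat.cast_choose_two]
  have h0 : (0 : ℝ) ≤ n := Nat.cast_nonneg n
  nlinarith

lemma card_E_ge (n : ℕ) (hn : 2 ≤ n) : (n : ℝ) ^ 2 / 4 ≤ (Fintype.card (E n) : ℝ) := by
  rw [card_E, Nat.cast_choose_two]
  have h0 : (2 : ℝ) ≤ n := by exact_mod_cast hn
  nlinarith

lemma measurable_graph {n : ℕ} {α : Type*} [MeasurableSpace α] (f : SimpleGraph (Fin n) → α) :
    Measurable f := measurable_from_top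

lemma measurableSet_graph {n : ℕ} (s : Set (SimpleGraph (Fin n))) : MeasurableSet s :=
  MeasurableSpace.measurableSet_top

instance (n : ℕ) : MeasurableSingletonClass (SimpleGraph (Fin n)) := ⟨fun _ => measurableSet_graph _⟩

lemma IsDep.pair {n d : ℕ} {p : ℝ} {μ : Measure (SimpleGraph (Fin n))} {D : SimpleGraph (E n)}
    (h : IsDep d p μ) (hD : IsDependencyGraph D μ) {e f : E n} (hef : f ≠ e)
    (hadj : ¬ D.Adj e f) : μ.real {G | edgeIn e G ∧ edgeIn f G} = p * p := by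
  have := h.prob
  have hind : IndepFun (fun G => edgeIn e G) (fun G => edgeIn f G) μ := by
    have hm : Measurable (fun g : {f : E n // f ≠ e ∧ ¬ D.Adj e f} → Prop =>
        g ⟨f, hef, hadj⟩) := measurable_pi_apply _
    exact (hD e).comp measurable_id hm
  have h2 := (indepFun_iff_measure_inter_preimage_eq_mul.1 hind) {True} {True}
    (MeasurableSet.singleton _) (MeasurableSet.singleton _)
  have e1 : (fun G : SimpleGraph (Fin n) => edgeIn e G) ⁻¹' {True} = {G | edgeIn e G} := by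
    ext G; simp
  have e2 : (fun G : SimpleGraph (Fin n) => edgeIn f G) ⁻¹' {True} = {G | edgeIn f G} := by
    ext G; simp
  rw [e1, e2] at h2
  have h3 : {G | edgeIn e G ∧ edgeIn f G} = {G | edgeIn e G} ∩ {G | edgeIn f G} := rfl
  rw [h3, measureReal_def, h2, ENNReal.toReal_mul, ← measureReal_def, ← measureReal_def, h.edge,
    h.edge]

/-- `d`-dependence is monotone in `d`. -/
lemma IsDep.mono {n d d' : ℕ} {p : ℝ} {μ : Measure (SimpleGraph (Fin n))}
    (h : IsDep d p μ) (hdd : d ≤ d') : IsDep d' p μ := by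
  obtain ⟨D, hD, hD2⟩ := h.dep
  exact ⟨h.prob, h.edge, D, fun e => (hD e).trans hdd, hD2⟩

open Classical in
/-- The number of edges as a sum of indicators. -/
lemma ncard_edgeSet {n : ℕ} (G : SimpleGraph (Fin n)) :
    (G.edgeSet.ncard : ℝ) = ∑ e : E n, (if edgeIn e G then (1 : ℝ) else 0) := by
  rw [Finset.sum_boole]
  congr 1
  rw [Set.ncard_eq_toFinset_card' G.edgeSet]
  refine Finset.card_bij' (fun e he => (⟨e, ?_⟩ : E n)) (fun e _ => e.1) ?_ ?_ ?_ ?_
  · rw [Set.mem_toFinset] at he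
    exact G.not_isDiag_of_mem_edgeSet he
  · intro e he
    rw [Set.mem_toFinset] at he
    exact Finset.mem_filter.2 ⟨Finset.mem_univ _, he⟩
  · intro e he
    rw [Set.mem_toFinset]
    exact (Finset.mem_filter.1 he).2
  · intro e he; rfl
  · intro e he; rfl

end Pool.Agent.Q211.LocDep
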