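import Pool.Agent.Q211.LocDep.Main

open MeasureTheory ProbabilityTheory Filter Asymptotics
open scoped Topology ENNReal

namespace Pool.Agent.Q211.LocDep

lemma sqrt_facts {n : ℕ} (hn : 1 ≤ n) : (1 : ℝ) ≤ n ∧ 0 < √(n : ℝ) ∧ √(n : ℝ) * √(n : ℝ) = n := by
  have hn0 : (1 : ℝ) ≤ n := by exact_mod_cast hn
  exact ⟨hn0, Real.sqrt_pos.2 (by linarith), Real.mul_self_sqrt (by linarith)⟩

lemma Lo_pos (n : ℕ) (hn : 1 ≤ n) (d : ℕ) : 0 < Lo n d := by
  obtain ⟨h1, h2, h3⟩ := sqrt_facts hn
  unfold Lo
  split_ifs <;> positivity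

lemma Lo_le_Up (n d : ℕ) : Lo n d ≤ Up n d := by
  unfold Lo Up
  split_ifs with h
  · exact le_max_left _ _
  · refine le_max_of_le_right ?_
    exact div_le_div_of_nonneg_right (by have : (0 : ℝ) ≤ d := Nat.cast_nonneg d; linarith)
      (by positivity)

/-- `n^{-2} ≤ n^{-3/2}`. -/
lemma inv_sq_le {n : ℕ} (hn : 1 ≤ n) : 1 / (n : ℝ) ^ 2 ≤ 1 / ((n : ℝ) * √(n : ℝ)) := by
  obtain ⟨h1, h2, h3⟩ := sqrt_facts hn
  refine one_div_le_one_div_of_le (by positivity) ?_
  have : √(n : ℝ) ≤ n := by
    rw [Real.sqrt_le_left (by linarith)]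
    nlinarith
  nlinarith

/-- If `(d+1) ≤ √n` the upper threshold is `n^{-3/2}`. -/
lemma Up_eq_left {n d : ℕ} (hn : 1 ≤ n) (hd : (d : ℝ) + 1 ≤ √(n : ℝ)) :
    Up n d = 1 / ((n : ℝ) * √(n : ℝ)) := by
  obtain ⟨h1, h2, h3⟩ := sqrt_facts hn
  unfold Up
  refine max_eq_left ?_
  rw [div_le_div_iff₀ (by positivity) (by positivity)]
  calc ((d : ℝ) + 1) * (n * √n) ≤ √(n : ℝ) * (n * √n) :=
        mul_le_mul_of_nonneg_right hd (by positivity)
    _ = (√(n : ℝ) * √(n : ℝ)) * n := by ring
    _ = 1 * (n : ℝ) ^ 2 := by rw [h3]; ring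

/-- If `√n < d + 1` the upper threshold is `(d+1)/n²`. -/
lemma Up_eq_right {n d : ℕ} (hn : 1 ≤ n) (hd : √(n : ℝ) < (d : ℝ) + 1) :
    Up n d = ((d : ℝ) + 1) / (n : ℝ) ^ 2 := by
  obtain ⟨h1, h2, h3⟩ := sqrt_facts hn
  unfold Up
  refine max_eq_right ?_
  rw [div_le_div_iff₀ (by positivity) (by positivity)]
  calc 1 * (n : ℝ) ^ 2 = (√(n : ℝ) * √(n : ℝ)) * n := by rw [h3]; ring
    _ = √(n : ℝ) * (n * √n) := by ring
    _ ≤ ((d : ℝ) + 1) * (n * √n) := mul_le_mul_of_nonneg_right hd.le (by positivity)

/-- Bound for the probability of the property below the lower threshold. -/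
lemma lower_bound {n d : ℕ} {p : ℝ} {μ : Measure (SimpleGraph (Fin n))} (h : IsDep d p μ)
    (hn : 1 ≤ n) (hp : 0 ≤ p) : μ.real (prop n) ≤ (p / Lo n d) ^ 2 + p / Lo n d := by
  obtain ⟨h1, h2, h3⟩ := sqrt_facts hn
  have := h.prob
  by_cases hd : d = 0
  · subst hd
    have := prop_le_of_zero h hn hp
    have he : p / Lo n 0 = p * (n * √n) := by
      unfold Lo; rw [if_pos rfl, div_div_eq_mul_div, div_one]
    rw [he]; exact this
  · have he : p / Lo n d = p * (n : ℝ) ^ 2 := by
      unfold Lo; rw [if_neg hd, div_div_eq_mul_div, div_one]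
    rw [he]
    have h4 := (measureReal_mono (prop_subset_nonempty hn)).trans (exists_edge_le h)
    have h5 := mul_le_mul_of_nonneg_right (card_E_le n) hp
    have h6 : (0 : ℝ) ≤ (p * (n : ℝ) ^ 2) ^ 2 := sq_nonneg _
    linarith

lemma tendsto_of_bound {a x : ℕ → ℝ} (ha : ∀ n, 0 ≤ a n) (hx : Tendsto x atTop (𝓝 0))
    (hb : ∀ᶠ n in atTop, a n ≤ (x n) ^ 2 + 2 * x n) : Tendsto a atTop (𝓝 0) := by
  have h1 : Tendsto (fun n => (x n) ^ 2 + 2 * x n) atTop (𝓝 0) := by
    simpa using (hx.pow 2).add (hx.const_mul 2)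
  exact tendsto_of_tendsto_of_tendsto_of_le_of_le' tendsto_const_nhds h1
    (Eventually.of_forall ha) hb

lemma admissible_eventually {d : ℕ → ℕ} (h : Admissible d) : ∀ᶠ n in atTop, d n + 1 ≤ n ^ 2 := by
  obtain ⟨C, hC⟩ := h.bound
  have h1 : ∀ᶠ n : ℕ in atTop, 1 ≤ Real.log n :=
    (Real.tendsto_log_atTop.comp tendsto_natCast_atTop_atTop).eventually_ge_atTop 1
  have h2 : ∀ᶠ n : ℕ in atTop, |C| + 1 ≤ (n : ℝ) :=
    tendsto_natCast_atTop_atTop.eventually_ge_atTop _
  filter_upwards [hC, h1, h2, eventually_ge_atTop 1] with n a b c hn1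
  have hn0 : (1 : ℝ) ≤ n := by exact_mod_cast hn1
  rw [Real.norm_of_nonneg (Nat.cast_nonneg _), Real.norm_of_nonneg (by positivity)] at a
  have h3 : (n : ℝ) / Real.log n ≤ n := div_le_self (by linarith) b
  have h4 : (d n : ℝ) ≤ |C| * n := by
    calc (d n : ℝ) ≤ C * ((n : ℝ) / Real.log n) := a
      _ ≤ |C| * ((n : ℝ) / Real.log n) :=
        mul_le_mul_of_nonneg_right (le_abs_self C) (by positivity)
      _ ≤ |C| * n := mul_le_mul_of_nonneg_left h3 (abs_nonneg C)
  have h5 : (d n : ℝ) + 1 ≤ (n : ℝ) ^ 2 := by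
    have : (|C| + 1) * n ≤ n * n := mul_le_mul_of_nonneg_right c (by linarith)
    nlinarith
  exact_mod_cast h5

theorem isMonotoneProperty_prop : IsMonotoneProperty prop := by
  refine ⟨?_, ?_, ?_⟩
  · rintro n G G' hle (⟨u, v, w, h1, h2, h3⟩ | h)
    · exact Or.inl ⟨u, v, w, h1, hle h2, hle h3⟩
    · refine Or.inr (h.trans ?_)
      exact_mod_cast Set.ncard_le_ncard (SimpleGraph.edgeSet_mono hle) (Set.toFinite _)
  · rintro n G G' ⟨φ⟩ (⟨u, v, w, h1, h2, h3⟩ | h)
    · exact Or.inl ⟨φ u, φ v, φ w, fun h => h1 (φ.injective h), φ.map_adj_iff.2 h2,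
        φ.map_adj_iff.2 h3⟩
    · refine Or.inr (h.trans (le_of_eq ?_))
      have : G.edgeSet.ncard = G'.edgeSet.ncard := by
        rw [← Nat.card_coe_set_eq, ← Nat.card_coe_set_eq]
        exact Nat.card_congr φ.mapEdgeSet
      exact_mod_cast this
  · filter_upwards [eventually_ge_atTop 3] with n hn
    constructor
    · refine ⟨⊤, Or.inl ⟨⟨0, by omega⟩, ⟨1, by omega⟩, ⟨2, by omega⟩, ?_, ?_, ?_⟩⟩
      · intro h; simp at h
      · simp
      · simp
    · intro h
      have h1 : (⊥ : SimpleGraph (Fin n)) ∈ prop n := by rw [h]; exact Set.mem_univ _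
      obtain ⟨e, he⟩ := prop_subset_nonempty (by omega) h1
      simp [edgeIn] at he

theorem isThresholdPair_prop : IsThresholdPair prop Lo Up := by
  refine ⟨fun n hn d => Lo_pos n hn d, Lo_le_Up, ?_, ?_, ?_⟩
  · -- below the lower threshold
    intro d p hd hp hlo μ hμ
    have hx : Tendsto (fun n => p n / Lo n (d n)) atTop (𝓝 0) := hlo.tendsto_div_nhds_zero
    refine tendsto_of_bound (fun n => measureReal_nonneg) hx ?_
    filter_upwards [eventually_ge_atTop 1] with n hn
    have h1 := lower_bound (hμ n) hn (hp n).1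
    have h2 : 0 ≤ p n / Lo n (d n) := div_nonneg (hp n).1 (Lo_pos n hn _).le
    linarith
  · -- above the upper threshold
    intro d p hd hp hup μ hμ
    have hy : Tendsto (fun n => Up n (d n) / p n) atTop (𝓝 0) := hup.tendsto_div_nhds_zero
    have h8 := hup.bound (show (0 : ℝ) < 1 / 8 by norm_num)
    have hkey : Tendsto (fun n => 1 - (μ n).real (prop n)) atTop (𝓝 0) := by
      have hlim : Tendsto (fun n => 16 * (Up n (d n) / p n)) atTop (𝓝 0) := by
        simpa using hy.const_mul 16
      refine tendsto_of_tendsto_of_tendsto_of_le_of_le' tendsto_const_nhds hlim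
        (Eventually.of_forall fun n => ?_) ?_
      · have := (hμ n).prob
        have := measureReal_le_one (μ := μ n) (s := prop n)
        show 0 ≤ 1 - (μ n).real (prop n)
        linarith
      · filter_upwards [h8, eventually_ge_atTop 2] with n h8n hn
        have hUp : 0 < Up n (d n) := (Lo_pos n (by omega) (d n)).trans_le (Lo_le_Up n (d n))
        rw [Real.norm_of_nonneg hUp.le, Real.norm_of_nonneg (hp n).1] at h8n
        have hp0 : 0 < p n := by linarith
        obtain ⟨g1, g2, g3⟩ := sqrt_facts (n := n) (by omega)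
        have hbig : 8 / ((n : ℝ) * √(n : ℝ)) ≤ p n := by
          have : 1 / ((n : ℝ) * √(n : ℝ)) ≤ Up n (d n) := le_max_left _ _
          have h9 : 8 / ((n : ℝ) * √(n : ℝ)) = 8 * (1 / ((n : ℝ) * √(n : ℝ))) := by ring
          rw [h9]; linarith
        refine (compl_prop_le (hμ n) hn hp0 hbig).trans ?_
        rw [mul_div_assoc]
        refine mul_le_mul_of_nonneg_left ?_ (by norm_num)
        exact div_le_div_of_nonneg_right (le_max_right _ _) hp0.le
    have := hkey.const_sub 1
    simpa using this
  · -- between the thresholds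
    intro d p hd hp hlo hup
    have hne : ∀ᶠ n in atTop, d n ≠ 0 ∧ 0 < p n := by
      have h1 := hlo.bound (show (0 : ℝ) < 1 / 2 by norm_num)
      have h2 := hup.bound (show (0 : ℝ) < 1 / 2 by norm_num)
      filter_upwards [h1, h2, eventually_ge_atTop 1] with n a b hn
      have hLo : 0 < Lo n (d n) := Lo_pos n hn (d n)
      have hUp : 0 < Up n (d n) := hLo.trans_le (Lo_le_Up n (d n))
      rw [Real.norm_of_nonneg hLo.le, Real.norm_of_nonneg (hp n).1] at a
      rw [Real.norm_of_nonneg hUp.le, Real.norm_of_nonneg (hp n).1] at b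
      refine ⟨?_, by linarith⟩
      intro h0
      have h3 : Up n (d n) = Lo n (d n) := by
        rw [h0, Up_eq_left hn]
        · unfold Lo; rw [if_pos rfl]
        · obtain ⟨g1, g2, g3⟩ := sqrt_facts (n := n) hn
          push_cast
          rw [zero_add, Real.one_le_sqrt]
          exact g1
      linarith
    constructor
    · refine ⟨fun n => if d n = 0 then blockMeasure (id : E n → E n) (p n) else
        blockMeasure (pairBlock (n := n)) (p n), ?_, ?_⟩
      · intro n
        show IsDep (d n) (p n) (if d n = 0 then blockMeasure (id : E n → E n) (p n) else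
          blockMeasure (pairBlock (n := n)) (p n))
        split_ifs with h0
        · refine block_isDep _ _ (fun i => ?_) (hp n)
          have : (Finset.univ.filter (fun e : E n => id e = i)) = {i} := by
            ext e; simp
          rw [this, Finset.card_singleton]; omega
        · exact block_isDep _ _ (fun i => (pairBlock_fiber i).trans (by omega)) (hp n)
      · have hlim : Tendsto (fun n => 64 * (Lo n (d n) / p n)) atTop (𝓝 0) := by
          simpa using hlo.tendsto_div_nhds_zero.const_mul 64
        have hkey : Tendsto (fun n => 1 - (if d n = 0 then blockMeasure (id : E n → E n) (p n) else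
            blockMeasure (pairBlock (n := n)) (p n)).real (prop n)) atTop (𝓝 0) := by
          refine tendsto_of_tendsto_of_tendsto_of_le_of_le' tendsto_const_nhds hlim ?_ ?_
          · filter_upwards [hne] with n hn
            rw [if_neg hn.1]
            have hbp := bern_prob (hp n)
            have hprob : IsProbabilityMeasure (blockMeasure (pairBlock (n := n)) (p n)) :=
              Measure.isProbabilityMeasure_map (measurable_graphOf _).aemeasurable
            have := measureReal_le_one (μ := blockMeasure (pairBlock (n := n)) (p n)) (s := prop n)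
            linarith
          · filter_upwards [hne, eventually_ge_atTop 4] with n hn hn4
            rw [if_neg hn.1]
            refine (pair_bound (hp n) hn.2 hn4).trans (le_of_eq ?_)
            unfold Lo
            rw [if_neg hn.1, mul_div_assoc]
        have := hkey.const_sub 1
        simpa using this
    · classical
      refine ⟨fun n => if ((d n : ℝ) + 1 ≤ √(n : ℝ)) then blockMeasure (id : E n → E n) (p n) else
        blockMeasure (cluster (n := n) (d n)) (p n), ?_, ?_⟩
      · intro n
        show IsDep (d n) (p n) (if ((d n : ℝ) + 1 ≤ √(n : ℝ)) then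
          blockMeasure (id : E n → E n) (p n) else blockMeasure (cluster (n := n) (d n)) (p n))
        split_ifs with h0
        · refine block_isDep _ _ (fun i => ?_) (hp n)
          have : (Finset.univ.filter (fun e : E n => id e = i)) = {i} := by
            ext e; simp
          rw [this, Finset.card_singleton]; omega
        · exact block_isDep _ _ (fun i => cluster_fiber (d n) i) (hp n)
      · refine tendsto_of_bound (fun n => measureReal_nonneg) hup.tendsto_div_nhds_zero ?_
        filter_upwards [admissible_eventually hd, eventually_ge_atTop 1] with n hdn hn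
        have hUp : 0 < Up n (d n) := (Lo_pos n hn (d n)).trans_le (Lo_le_Up n (d n))
        have hz : 0 ≤ p n / Up n (d n) := div_nonneg (hp n).1 hUp.le
        split_ifs with h0
        · have h1 : IsDep 0 (p n) (blockMeasure (id : E n → E n) (p n)) := by
            refine block_isDep _ _ (fun i => ?_) (hp n)
            have : (Finset.univ.filter (fun e : E n => id e = i)) = {i} := by
              ext e; simp
            rw [this, Finset.card_singleton]
          have h2 := prop_le_of_zero h1 hn (hp n).1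
          have he : p n / Up n (d n) = p n * (n * √n) := by
            rw [Up_eq_left hn h0, div_div_eq_mul_div, div_one]
          rw [he] at hz ⊢
          linarith
        · push Not at h0
          have h2 := cluster_bound (hp n) (d n) hn hdn
          rw [← Up_eq_right hn h0] at h2
          have h3 : 0 ≤ (p n / Up n (d n)) ^ 2 := sq_nonneg _
          linarith

theorem tendsto_ratio (d : ℕ) (hd : 1 ≤ d) : Tendsto (fun n => Up n d / Lo n d) atTop atTop := by
  have h1 : Tendsto (fun n : ℕ => √(n : ℝ)) atTop atTop :=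
    Real.tendsto_sqrt_atTop.comp tendsto_natCast_atTop_atTop
  refine tendsto_atTop_mono' atTop ?_ h1
  filter_upwards [eventually_ge_atTop 1] with n hn
  obtain ⟨g1, g2, g3⟩ := sqrt_facts hn
  rw [le_div_iff₀ (Lo_pos n hn d)]
  refine le_trans ?_ (le_max_left _ _)
  unfold Lo
  rw [if_neg (by omega), le_div_iff₀ (by positivity)]
  have : √(n : ℝ) * (1 / (n : ℝ) ^ 2) * (n * √n) = (√(n : ℝ) * √(n : ℝ)) * n / (n : ℝ) ^ 2 := by
    ring
  rw [this, g3]
  apply le_of_eq
  field_simp

end Pool.Agent.Q211.LocDep
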