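import Pool.Agent.Q211.LocDep.Bounds

open MeasureTheory ProbabilityTheory Filter Asymptotics
open scoped Topology ENNReal

namespace Pool.Agent.Q211.LocDep

variable {n : ℕ}

/-! ### The three block structures -/

/-- Pairing of the edges `{i, 2k}` and `{i, 2k+1}` for `i < 2k`. -/
def pairBlock (e : E n) : Fin n × Fin n :=
  (e.1.inf, ⟨(e.1.sup).val / 2, lt_of_le_of_lt (Nat.div_le_self _ _) (e.1.sup).isLt⟩)

lemma edge_ext {e f : E n} (h1 : e.1.inf = f.1.inf) (h2 : e.1.sup = f.1.sup) : e = f := by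
  apply Subtype.ext
  obtain ⟨e, he⟩ := e
  obtain ⟨f, hf⟩ := f
  simp only at h1 h2 ⊢
  induction e using Sym2.ind with
  | _ x y =>
    induction f using Sym2.ind with
    | _ z w =>
      rw [Sym2.inf_mk, Sym2.inf_mk] at h1
      rw [Sym2.sup_mk, Sym2.sup_mk] at h2
      rw [Sym2.eq_iff]
      rcases le_total x y with hxy | hxy <;> rcases le_total z w with hzw | hzw
      · rw [inf_eq_left.2 hxy, inf_eq_left.2 hzw] at h1
        rw [sup_eq_right.2 hxy, sup_eq_right.2 hzw] at h2
        exact Or.inl ⟨h1, h2⟩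
      · rw [inf_eq_left.2 hxy, inf_eq_right.2 hzw] at h1
        rw [sup_eq_right.2 hxy, sup_eq_left.2 hzw] at h2
        exact Or.inr ⟨h1, h2⟩
      · rw [inf_eq_right.2 hxy, inf_eq_left.2 hzw] at h1
        rw [sup_eq_left.2 hxy, sup_eq_right.2 hzw] at h2
        exact Or.inr ⟨h2, h1⟩
      · rw [inf_eq_right.2 hxy, inf_eq_right.2 hzw] at h1
        rw [sup_eq_left.2 hxy, sup_eq_left.2 hzw] at h2
        exact Or.inl ⟨h2, h1⟩

lemma pairBlock_fiber (i : Fin n × Fin n) :
    (Finset.univ.filter (fun e : E n => pairBlock e = i)).card ≤ 2 := by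
  have h : (Finset.univ.filter (fun e : E n => pairBlock e = i)).card ≤
      ({2 * i.2.val, 2 * i.2.val + 1} : Finset ℕ).card := by
    refine Finset.card_le_card_of_injOn (fun e => (e.1.sup).val) ?_ ?_
    · intro e he
      have he2 : pairBlock e = i := (Finset.mem_filter.1 he).2
      have h3 : (e.1.sup).val / 2 = i.2.val := by rw [← he2]; rfl
      simp only [Finset.coe_insert, Finset.coe_singleton, Set.mem_insert_iff,
        Set.mem_singleton_iff]
      omega
    · intro e he f hf hef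
      have he2 : pairBlock e = i := (Finset.mem_filter.1 he).2
      have hf2 : pairBlock f = i := (Finset.mem_filter.1 hf).2
      refine edge_ext ?_ (Fin.ext hef)
      have h1 : (pairBlock e).1 = (pairBlock f).1 := by rw [he2, hf2]
      exact h1
  exact h.trans Finset.card_le_two

/-- The blocks `(i, k)` which contain two adjacent edges. -/
def cherryBlocks (n : ℕ) : Finset (Fin n × Fin n) :=
  Finset.univ.filter (fun i => i.1.val < n / 4 ∧ n / 4 ≤ i.2.val ∧ i.2.val < 2 * (n / 4))

lemma card_cherryBlocks (n : ℕ) : (n / 4) ^ 2 ≤ (cherryBlocks n).card := by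
  have h : ((Finset.univ : Finset (Fin (n / 4) × Fin (n / 4)))).card ≤ (cherryBlocks n).card := by
    refine Finset.card_le_card_of_injOn
      (fun t => (⟨t.1.val, by have := t.1.isLt; omega⟩,
        ⟨n / 4 + t.2.val, by have := t.2.isLt; omega⟩)) ?_ ?_
    · intro t _
      have h1 := t.1.isLt
      have h2 := t.2.isLt
      simp only [cherryBlocks, Finset.coe_filter, Finset.mem_univ, true_and]
      show t.1.val < n / 4 ∧ n / 4 ≤ n / 4 + t.2.val ∧ n / 4 + t.2.val < 2 * (n / 4)
      omega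
    · intro t _ s _ hts
      simp only [Prod.mk.injEq, Fin.mk.injEq] at hts
      refine Prod.ext (Fin.ext hts.1) (Fin.ext ?_)
      omega
  rw [Finset.card_univ, Fintype.card_prod, Fintype.card_fin] at h
  nlinarith

lemma pair_subset (ω : Fin n × Fin n → Bool) (h : graphOf (pairBlock (n := n)) ω ∉ prop n) :
    ∀ i ∈ cherryBlocks n, ω i = false := by
  intro i hi
  by_contra hcon
  have htrue : ω i = true := by simpa using hcon
  simp only [cherryBlocks, Finset.mem_filter, Finset.mem_univ, true_and] at hi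
  obtain ⟨h1, h2, h3⟩ := hi
  apply h
  left
  have hlt1 : 2 * i.2.val < n := by omega
  have hlt2 : 2 * i.2.val + 1 < n := by omega
  let v : Fin n := ⟨2 * i.2.val, hlt1⟩
  let w : Fin n := ⟨2 * i.2.val + 1, hlt2⟩
  have hiv : i.1 < v := by
    show i.1.val < 2 * i.2.val
    omega
  have hiw : i.1 < w := by
    show i.1.val < 2 * i.2.val + 1
    omega
  refine ⟨i.1, v, w, ?_, ?_, ?_⟩
  · intro hvw
    have := congrArg Fin.val hvw
    simp only [v, w] at this
    omega
  · have := (edgeIn_graphOf (pairBlock (n := n)) ω ⟨s(i.1, v), by simpa using hiv.ne⟩).2 ?_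
    · exact this
    · have : pairBlock (n := n) ⟨s(i.1, v), by simpa using hiv.ne⟩ = i := by
        refine Prod.ext ?_ ?_
        · show (s(i.1, v) : Sym2 (Fin n)).inf = i.1
          rw [Sym2.inf_mk]
          exact inf_eq_left.2 hiv.le
        · apply Fin.ext
          show ((s(i.1, v) : Sym2 (Fin n)).sup).val / 2 = i.2.val
          rw [Sym2.sup_mk, sup_eq_right.2 hiv.le]
          simp only [v]
          omega
      rw [this]; exact htrue
  · have := (edgeIn_graphOf (pairBlock (n := n)) ω ⟨s(i.1, w), by simpa using hiw.ne⟩).2 ?_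
    · exact this
    · have : pairBlock (n := n) ⟨s(i.1, w), by simpa using hiw.ne⟩ = i := by
        refine Prod.ext ?_ ?_
        · show (s(i.1, w) : Sym2 (Fin n)).inf = i.1
          rw [Sym2.inf_mk]
          exact inf_eq_left.2 hiw.le
        · apply Fin.ext
          show ((s(i.1, w) : Sym2 (Fin n)).sup).val / 2 = i.2.val
          rw [Sym2.sup_mk, sup_eq_right.2 hiw.le]
          simp only [w]
          omega
      rw [this]; exact htrue

lemma pair_bound {p : ℝ} (hp : p ∈ Set.Icc (0 : ℝ) 1) (hp0 : 0 < p) (hn : 4 ≤ n) :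
    1 - (blockMeasure (pairBlock (n := n)) p).real (prop n) ≤ 64 * (1 / (n : ℝ) ^ 2) / p := by
  have hbp := bern_prob hp
  have hprob : IsProbabilityMeasure (blockMeasure (pairBlock (n := n)) p) :=
    Measure.isProbabilityMeasure_map (measurable_graphOf _).aemeasurable
  have h1 : 1 - (blockMeasure (pairBlock (n := n)) p).real (prop n) =
      (blockMeasure (pairBlock (n := n)) p).real (prop n)ᶜ := by
    rw [probReal_compl_eq_one_sub (measurableSet_graph _)]
  rw [h1, measureReal_def, blockMeasure_apply]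
  have h2 : (Measure.pi (fun _ : Fin n × Fin n => bern p))
      {ω | graphOf (pairBlock (n := n)) ω ∈ (prop n)ᶜ} ≤ ENNReal.ofReal ((1 - p) ^ (cherryBlocks n).card) := by
    rw [← pi_all_false hp]
    exact measure_mono fun ω hω => pair_subset ω hω
  have h1p : 0 ≤ 1 - p := by linarith [hp.2]
  refine (ENNReal.toReal_mono ENNReal.ofReal_ne_top h2).trans ?_
  rw [ENNReal.toReal_ofReal (by positivity)]
  set K := (cherryBlocks n).card with hK
  have hKn : (n : ℝ) ^ 2 / 64 ≤ (K : ℝ) := by
    have ha : ((n / 4 : ℕ) : ℝ) ^ 2 ≤ (K : ℝ) := by exact_mod_cast card_cherryBlocks n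
    have hb : (n : ℝ) / 8 ≤ ((n / 4 : ℕ) : ℝ) := by
      have hc : n ≤ 8 * (n / 4) := by omega
      have : (n : ℝ) ≤ 8 * ((n / 4 : ℕ) : ℝ) := by exact_mod_cast hc
      linarith
    have hd : ((n : ℝ) / 8) ^ 2 ≤ ((n / 4 : ℕ) : ℝ) ^ 2 := pow_le_pow_left₀ (by positivity) hb 2
    linarith [hd, ha, show ((n : ℝ) / 8) ^ 2 = (n : ℝ) ^ 2 / 64 by ring]
  have hn0 : (4 : ℝ) ≤ n := by exact_mod_cast hn
  have hKpos : (0 : ℝ) < K := lt_of_lt_of_le (by positivity) hKn
  have h3 : (1 - p) ^ K ≤ Real.exp (-(p * K)) := by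
    calc (1 - p) ^ K ≤ (Real.exp (-p)) ^ K :=
          pow_le_pow_left₀ h1p (by have := Real.add_one_le_exp (-p); linarith) K
      _ = Real.exp (-(p * K)) := by rw [← Real.exp_nat_mul]; congr 1; ring
  have h4 : Real.exp (-(p * K)) ≤ 1 / (p * K) := by
    rw [Real.exp_neg, inv_eq_one_div]
    refine one_div_le_one_div_of_le (by positivity) ?_
    have := Real.add_one_le_exp (p * K)
    linarith
  refine h3.trans (h4.trans ?_)
  rw [div_le_div_iff₀ (by positivity) hp0]
  have : (n : ℝ) ^ 2 * (1 / (n : ℝ) ^ 2) = 1 := by field_simp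
  have h5 : 1 ≤ 64 * (1 / (n : ℝ) ^ 2) * K := by
    calc (1 : ℝ) = 64 * (1 / (n : ℝ) ^ 2) * ((n : ℝ) ^ 2 / 64) := by
          field_simp
      _ ≤ _ := mul_le_mul_of_nonneg_left hKn (by positivity)
  nlinarith

/-- Blocks of `d + 1` consecutive edges in some enumeration. -/
noncomputable def cluster (d : ℕ) (e : E n) : Fin (Fintype.card (E n) / (d + 1) + 1) :=
  ⟨(Fintype.equivFin (E n) e).val / (d + 1),
    Nat.lt_succ_of_le (Nat.div_le_div_right (Fintype.equivFin (E n) e).isLt.le)⟩

lemma cluster_fiber (d : ℕ) (i : Fin (Fintype.card (E n) / (d + 1) + 1)) :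
    (Finset.univ.filter (fun e : E n => cluster d e = i)).card ≤ d + 1 := by
  have h : (Finset.univ.filter (fun e : E n => cluster d e = i)).card ≤
      (Finset.Ico ((d + 1) * i.val) ((d + 1) * i.val + (d + 1))).card := by
    refine Finset.card_le_card_of_injOn (fun e => (Fintype.equivFin (E n) e).val) ?_ ?_
    · intro e he
      have he2 : cluster d e = i := (Finset.mem_filter.1 he).2
      have h3 : (Fintype.equivFin (E n) e).val / (d + 1) = i.val := by rw [← he2]; rfl
      rw [Finset.coe_Ico, Set.mem_Ico, ← h3]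
      constructor
      · exact Nat.mul_div_le _ _
      · have := Nat.lt_mul_div_succ (Fintype.equivFin (E n) e).val (Nat.succ_pos d)
        have h4 : (d + 1) * ((Fintype.equivFin (E n) e).val / (d + 1) + 1) =
          (d + 1) * ((Fintype.equivFin (E n) e).val / (d + 1)) + (d + 1) := by ring
        rw [← h4]
        exact this
    · intro e _ f _ hef
      exact (Fintype.equivFin (E n)).injective (Fin.ext hef)
  rwa [Nat.card_Ico, Nat.add_sub_cancel_left] at h

lemma cluster_bound {p : ℝ} (hp : p ∈ Set.Icc (0 : ℝ) 1) (d : ℕ) (hn : 1 ≤ n)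
    (hd : d + 1 ≤ n ^ 2) :
    (blockMeasure (cluster (n := n) d) p).real (prop n) ≤ 2 * (p / (((d : ℝ) + 1) / (n : ℝ) ^ 2)) := by
  have hbp := bern_prob hp
  have hprob : IsProbabilityMeasure (blockMeasure (cluster (n := n) d) p) :=
    Measure.isProbabilityMeasure_map (measurable_graphOf _).aemeasurable
  have hn0 : (1 : ℝ) ≤ n := by exact_mod_cast hn
  refine (measureReal_mono (prop_subset_nonempty hn)).trans ((block_exists_le _ hp).trans ?_)
  rw [Fintype.card_fin]
  have hd' : ((d : ℝ) + 1) ≤ (n : ℝ) ^ 2 := by exact_mod_cast hd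
  have hdp : (0 : ℝ) < (d : ℝ) + 1 := by positivity
  have h1 : ((Fintype.card (E n) / (d + 1) + 1 : ℕ) : ℝ) ≤ 2 * ((n : ℝ) ^ 2 / ((d : ℝ) + 1)) := by
    push_cast
    have ha : ((Fintype.card (E n) / (d + 1) : ℕ) : ℝ) ≤ (n : ℝ) ^ 2 / ((d : ℝ) + 1) := by
      refine (Nat.cast_div_le).trans ?_
      push_cast
      exact div_le_div_of_nonneg_right (card_E_le n) hdp.le
    have hb : (1 : ℝ) ≤ (n : ℝ) ^ 2 / ((d : ℝ) + 1) := by
      rw [le_div_iff₀ hdp]; linarith
    linarith
  calc ((Fintype.card (E n) / (d + 1) + 1 : ℕ) : ℝ) * p ≤ 2 * ((n : ℝ) ^ 2 / ((d : ℝ) + 1)) * p :=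
        mul_le_mul_of_nonneg_right h1 hp.1
    _ = 2 * (p / (((d : ℝ) + 1) / (n : ℝ) ^ 2)) := by
        field_simp

end Pool.Agent.Q211.LocDep
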